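import Mathlib
import Pool.Agent.H306R2.Defs

/-!
Project ZQ (helper8), `MP_aa9ae4_nt`: the mean value of `|ζ(1/2+it)|² / |ζ(1+iat)|^{2β}`, every real `a > 0`, `β`.
Definitions and exact statements of the pieces; proofs on paper in `Notes.lean`.
-/

set_option autoImplicit false

namespace Pool.Agent.W2helper8.ZQ

open Finset Filter Topology MeasureTheory Complex
open Pool.Agent.H306R2 (dv)

noncomputable section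

/-- `e(x) = exp (i x)` -/
def e (x : ℝ) : ℂ := Complex.exp (x * I)

/-- `|ζ(1/2 + it)|²` -/
def Z2 (t : ℝ) : ℝ := ‖riemannZeta (1 / 2 + t * I)‖ ^ 2

/-- the length of the partial sums -/
def Ns (T : ℝ) : ℕ := ⌈4 * T⌉₊

/-- the partial sum of `ζ(1/2+it)` -/
def DN (N : ℕ) (t : ℝ) : ℂ := ∑ n ∈ Icc 1 N, ((1 / Real.sqrt n : ℝ) : ℂ) * e (-(t * Real.log n))

/-- smooth weights on `[T/2, 3T]` -/
structure Wt (C κ T : ℝ) (w : ℝ → ℝ) : Prop where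
  cont : Continuous w
  nn : ∀ t, 0 ≤ w t
  le1 : ∀ t, w t ≤ 1
  supp : ∀ t, w t ≠ 0 → t ∈ Set.Icc (T / 2) (3 * T)
  mass : ∫ t in (T / 2)..(3 * T), w t = κ * T
  dec : ∀ l : ℝ, l ≠ 0 → ‖∫ t in (T / 2)..(3 * T), (w t : ℂ) * e (l * t)‖ ≤ C / (T * l ^ 2)

/-- the twisted second moment `∫ w(t) |ζ(1/2+it)|² e^{iφt} dt` -/
def J (w : ℝ → ℝ) (T φ : ℝ) : ℂ := ∫ t in (T / 2)..(3 * T), ((w t * Z2 t : ℝ) : ℂ) * e (φ * t)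

/-- the double sum for it -/
def DS (w : ℝ → ℝ) (T φ : ℝ) : ℂ :=
  ∑ m ∈ Icc 1 (Ns T), ∑ n ∈ Icc 1 (Ns T), ((1 / (Real.sqrt m * Real.sqrt n) : ℝ) : ℂ) *
    ∫ t in (T / 2)..(3 * T), (w t : ℂ) * e ((φ + Real.log n - Real.log m) * t)

/-- the double sum with the Poisson kernel -/
def KS (x T : ℝ) : ℝ :=
  ∑ m ∈ Icc 1 (Ns T), ∑ n ∈ Icc 1 (Ns T), 1 / (Real.sqrt m * Real.sqrt n) *
    (1 / (1 + (T * (Real.log x + Real.log n - Real.log m)) ^ 2))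

/-- distance to the nearest integer -/
def dz (θ : ℝ) : ℝ := |θ - round θ|

/-- the single sum -/
def NS (x T : ℝ) : ℝ :=
  ∑ n ∈ (Icc 1 (Ns T)).filter (fun n : ℕ => x * n ≤ 2 * Ns T), 1 / (n * Real.sqrt x) *
    (1 / (1 + (T * dz (x * n) / (2 * (x * n))) ^ 2))

/-- `1 / √(hk)` if `x = h/k` in lowest terms, and `0` for irrational `x` -/
def cc (x : ℝ) : ℝ :=
  open Classical in
  if H : ∃ p : ℕ × ℕ, 0 < p.1 ∧ 0 < p.2 ∧ Nat.Coprime p.1 p.2 ∧ x = p.1 / p.2 then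
    1 / Real.sqrt (H.choose.1 * H.choose.2) else 0

/-- the truncated Dirichlet series of `ζ(1+iat)^b` -/
def AA (b a : ℝ) (N : ℕ) (t : ℝ) : ℂ :=
  ∑ n ∈ Icc 1 N, ((dv b n / n : ℝ) : ℂ) * e (-(a * Real.log n * t))

/-- the constant, truncated -/
def DD (b a : ℝ) (N : ℕ) : ℝ :=
  ∑ m ∈ Icc 1 N, ∑ n ∈ Icc 1 N, dv b m * dv b n / (m * n) * cc (((m : ℝ) / n) ^ a)

/-! ### basic facts -/

lemma norm_e (x : ℝ) : ‖e x‖ = 1 := Complex.norm_exp_ofReal_mul_I x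

lemma e_zero : e 0 = 1 := by simp [e]

lemma e_add (x y : ℝ) : e (x + y) = e x * e y := by
  unfold e
  rw [← Complex.exp_add]
  push_cast
  ring_nf

lemma conj_e (x : ℝ) : (starRingEnd ℂ) (e x) = e (-x) := by
  unfold e
  rw [← Complex.exp_conj]
  simp

lemma e_cont : Continuous e := by
  unfold e
  fun_prop

lemma z_ne_one (t : ℝ) : (1 / 2 + t * I : ℂ) ≠ 1 := by
  intro h
  have h2 := congrArg Complex.re h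
  norm_num at h2

lemma Z2_cont : Continuous Z2 := by
  unfold Z2
  refine (Continuous.norm ?_).pow 2
  rw [continuous_iff_continuousAt]
  intro t
  have h1 : ContinuousAt riemannZeta (1 / 2 + t * I) :=
    (differentiableAt_riemannZeta (z_ne_one t)).continuousAt
  have h2 : ContinuousAt (fun t : ℝ => (1 / 2 + t * I : ℂ)) t := by fun_prop
  exact ContinuousAt.comp (f := fun t : ℝ => (1 / 2 + t * I : ℂ)) (g := riemannZeta) h1 h2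

lemma Z2_nonneg (t : ℝ) : 0 ≤ Z2 t := by unfold Z2; positivity

lemma AA_cont (b a : ℝ) (N : ℕ) : Continuous (AA b a N) := by
  unfold AA
  refine continuous_finsetSum _ fun n _ => ?_
  exact continuous_const.mul (e_cont.comp (by fun_prop))

lemma DN_cont (N : ℕ) : Continuous (DN N) := by
  unfold DN
  refine continuous_finsetSum _ fun n _ => ?_
  exact continuous_const.mul (e_cont.comp (by fun_prop))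

lemma Zeta1_ne (a t : ℝ) : riemannZeta (1 + a * t * I) ≠ 0 :=
  riemannZeta_ne_zero_of_one_le_re (by simp)

lemma zeta1_contAt {a t : ℝ} (ha : 0 < a) (ht : 0 < t) :
    ContinuousAt (fun t : ℝ => riemannZeta (1 + a * t * I)) t := by
  have h0 : (1 + a * t * I : ℂ) ≠ 1 := by
    intro h
    have h2 := congrArg Complex.im h
    simp at h2
    rcases h2 with h2 | h2 <;> linarith
  have h1 : ContinuousAt riemannZeta (1 + a * t * I) := (differentiableAt_riemannZeta h0).continuousAt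
  have h2 : ContinuousAt (fun t : ℝ => (1 + a * t * I : ℂ)) t := by fun_prop
  exact ContinuousAt.comp (f := fun t : ℝ => (1 + a * t * I : ℂ)) (g := riemannZeta) h1 h2

lemma zpow_contAt (b : ℝ) {a t : ℝ} (ha : 0 < a) (ht : 0 < t) :
    ContinuousAt (fun t : ℝ => ‖riemannZeta (1 + a * t * I)‖ ^ b) t :=
  (zeta1_contAt ha ht).norm.rpow_const (Or.inl (norm_ne_zero_iff.2 (Zeta1_ne a t)))

lemma J_conj (w : ℝ → ℝ) (T φ : ℝ) : J w T (-φ) = (starRingEnd ℂ) (J w T φ) := by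
  unfold J intervalIntegral
  rw [map_sub, ← integral_conj, ← integral_conj]
  simp only [map_mul, Complex.conj_ofReal, conj_e, neg_mul]

lemma dz_nonneg (θ : ℝ) : 0 ≤ dz θ := abs_nonneg _

/-! ### statements -/

/-- TRAP: trapezoids above and below the indicator function of `[T, 2T]` -/
def S_TRAP : Prop := ∀ ε : ℝ, 0 < ε → ε ≤ 1 / 4 → ∃ C : ℝ, 0 < C ∧ ∀ T : ℝ, 1 ≤ T →
  (∃ w, Wt C (1 + ε) T w ∧ ∀ t ∈ Set.Icc T (2 * T), w t = 1) ∧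
  (∃ w, Wt C (1 - ε) T w ∧ ∀ t, t ∉ Set.Icc T (2 * T) → w t = 0)

/-- APX: zeta and its partial sum -/
def S_APX : Prop := ∃ K : ℝ, 0 < K ∧ ∀ T : ℝ, 2 ≤ T → ∀ t ∈ Set.Icc (T / 2) (3 * T),
  ‖riemannZeta (1 / 2 + t * I) - DN (Ns T) t‖ ≤ K

/-- KER: the double sum with a weight is bounded by the double sum with the kernel -/
def S_KER : Prop := ∀ C : ℝ, 0 < C → ∃ K : ℝ, 0 < K ∧ ∀ (T κ : ℝ) (w : ℝ → ℝ), 2 ≤ T → Wt C κ T w →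
  ∀ x : ℝ, 0 < x → ‖DS w T (Real.log x)‖ ≤ K * T * KS x T

/-- KA: from the double sum to the single sum -/
def S_KA : Prop := ∃ K : ℝ, 0 < K ∧ ∀ T x : ℝ, 2 ≤ T → 1 ≤ x → KS x T ≤ K * (1 + NS x T)

/-- KB: blocks of length `k` -/
def S_KB : Prop := ∃ K : ℝ, 0 < K ∧ ∀ (x : ℝ) (k m₀ : ℕ) (y : ℝ), 1 ≤ k → 0 < y →
  (∀ r : ℕ, 1 ≤ r → r < k → 1 / (2 * (k : ℝ)) ≤ dz (x * r)) →
  ∑ n ∈ Ico m₀ (m₀ + k), 1 / (1 + (dz (x * n) / y) ^ 2) ≤ K * (1 + k * y)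

/-- KC: the single sum -/
def S_KC : Prop := ∃ K : ℝ, 0 < K ∧ ∀ (T x : ℝ) (k : ℕ), 2 ≤ T → 1 ≤ x → x ≤ Real.sqrt T → 1 ≤ k →
  (k : ℝ) ≤ T ^ (1 / 4 : ℝ) → (∀ r : ℕ, 1 ≤ r → r < k → 1 / (2 * (k : ℝ)) ≤ dz (x * r)) →
  NS x T ≤ K * (1 + Real.log T / (k * Real.sqrt x))

/-- KD: Diophantine approximation with the minimal denominator -/
def S_KD : Prop := ∀ x Q : ℝ, 1 ≤ x → 1 ≤ Q → ∃ h k : ℕ, 1 ≤ h ∧ 1 ≤ k ∧ (k : ℝ) ≤ Q ∧ |k * x - h| ≤ 1 / Q ∧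
  Nat.Coprime h k ∧ ∀ r : ℕ, 1 ≤ r → r < k → 1 / (2 * (k : ℝ)) ≤ dz (x * r)

/-- `h/k` is a good approximation of `x` -/
def Good (x T : ℝ) (h k : ℕ) : Prop :=
  1 ≤ h ∧ 1 ≤ k ∧ |k * x - h| ≤ T ^ (-(1 / 4) : ℝ) ∧ Nat.Coprime h k

/-- KSB: the bound for the double sum -/
def S_KSB : Prop := ∃ K : ℝ, 0 < K ∧ ∀ T x : ℝ, 2 ≤ T → 1 ≤ x → x ≤ Real.sqrt T →
  ∃ h k : ℕ, Good x T h k ∧ KS x T ≤ K * (1 + Real.log T / (k * Real.sqrt x))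

/-- RED: the twisted moment and the double sum -/
def S_RED : Prop := ∀ C : ℝ, 0 < C → ∃ K : ℝ, 0 < K ∧ ∀ (T κ : ℝ) (w : ℝ → ℝ), 2 ≤ T → Wt C κ T w →
  ∀ φ : ℝ, ‖J w T φ - DS w T φ‖ ≤ K * (T * Real.sqrt (Real.log T))

/-- JB: the uniform bound for the twisted moment -/
def S_JB : Prop := ∀ C : ℝ, 0 < C → ∃ K : ℝ, 0 < K ∧ ∀ (T κ : ℝ) (w : ℝ → ℝ), 2 ≤ T → Wt C κ T w →
  ∀ x : ℝ, 1 ≤ x → x ≤ Real.sqrt T → ∃ h k : ℕ, Good x T h k ∧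
    ‖J w T (Real.log x)‖ ≤ K * T * (Real.log T / (k * Real.sqrt x) + Real.sqrt (Real.log T))

/-- RAT: rational twists -/
def S_RAT : Prop := ∀ (C : ℝ) (h k : ℕ), 0 < C → 1 ≤ k → k ≤ h → Nat.Coprime h k →
  ∃ K : ℝ, 0 < K ∧ ∀ (T κ : ℝ) (w : ℝ → ℝ), 2 ≤ T → Wt C κ T w →
    ‖DS w T (Real.log ((h : ℝ) / k)) - ((κ * (T * Real.log T) / Real.sqrt (h * k) : ℝ) : ℂ)‖ ≤ K * T

/-- IRR: irrational twists -/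
def S_IRR : Prop := ∀ x : ℝ, 1 ≤ x → Irrational x → ∀ ε : ℝ, 0 < ε → ∀ᶠ T : ℝ in atTop, KS x T ≤ ε * Real.log T

/-- FIX: fixed twists -/
def S_FIX : Prop := ∀ C x : ℝ, 0 < C → 0 < x → ∀ ε : ℝ, 0 < ε → ∀ᶠ T : ℝ in atTop, ∀ (κ : ℝ) (w : ℝ → ℝ),
  Wt C κ T w → ‖J w T (Real.log x) - ((κ * cc x * (T * Real.log T) : ℝ) : ℂ)‖ ≤ ε * (T * Real.log T)

/-- DV: the size of the coefficients -/
def S_DV : Prop := ∀ b ε : ℝ, 0 < ε → ∃ C : ℝ, 0 < C ∧ ∀ n : ℕ, 1 ≤ n → |dv b n| ≤ C * (n : ℝ) ^ ε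

/-- PAIR: close powers of fractions are equal -/
def S_PAIR : Prop := ∀ a B : ℝ, 0 < a → 0 < B → ∀ᶠ T : ℝ in atTop, ∀ m n m' n' h k : ℕ,
  1 ≤ n → n ≤ m → (m : ℝ) ≤ Real.log T ^ B → 1 ≤ n' → n' ≤ m' → (m' : ℝ) ≤ Real.log T ^ B → 1 ≤ k →
  |k * ((m : ℝ) / n) ^ a - h| ≤ T ^ (-(1 / 4) : ℝ) → |k * ((m' : ℝ) / n') ^ a - h| ≤ T ^ (-(1 / 4) : ℝ) →
  m * n' = m' * n

/-- SUM: the sum over the pairs -/
def S_SUM : Prop := ∃ K : ℝ, 0 < K ∧ ∀ (N : ℕ) (S : Finset (ℕ × ℕ)) (f : ℕ × ℕ → ℕ × ℕ), 1 ≤ N →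
  (∀ p ∈ S, N ≤ p.1 ∧ N ≤ p.2 ∧ 1 ≤ (f p).1 ∧ 1 ≤ (f p).2) →
  (∀ p ∈ S, ∀ q ∈ S, f p = f q → p.1 * q.2 = q.1 * p.2) →
  ∑ p ∈ S, ((p.1 : ℝ) * p.2) ^ (-(15 / 16) : ℝ) * (((f p).1 : ℝ) * (f p).2) ^ (-(1 / 2) : ℝ) ≤
    K * (N : ℝ) ^ (-(1 / 8) : ℝ)

/-- EXPJ: expanding the square of a short polynomial -/
def S_EXPJ : Prop := ∀ (a T : ℝ) (w : ℝ → ℝ) (M N : ℕ) (c : ℕ → ℝ), 0 < T → Continuous w →
  ((∫ t in (T / 2)..(3 * T), w t * Z2 t * ‖∑ n ∈ Ioc M N, (c n : ℂ) * e (-(a * Real.log n * t))‖ ^ 2 : ℝ) : ℂ) =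
    ∑ m ∈ Ioc M N, ∑ n ∈ Ioc M N, ((c m * c n : ℝ) : ℂ) * J w T (a * (Real.log n - Real.log m))

/-- TP: the bound for the twisted moments of all pairs -/
def S_TP : Prop := ∀ a B C : ℝ, 0 < a → 0 < B → 0 < C → ∃ K : ℝ, 0 < K ∧ ∀ᶠ T : ℝ in atTop,
  ∀ (κ : ℝ) (w : ℝ → ℝ), Wt C κ T w → ∃ f : ℕ × ℕ → ℕ × ℕ,
    (∀ p : ℕ × ℕ, 1 ≤ p.2 → p.2 ≤ p.1 → (p.1 : ℝ) ≤ Real.log T ^ B → 1 ≤ (f p).1 ∧ 1 ≤ (f p).2 ∧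
      ‖J w T (a * (Real.log p.1 - Real.log p.2))‖ ≤
        K * T * (Real.log T * (((f p).1 : ℝ) * (f p).2) ^ (-(1 / 2) : ℝ) + Real.sqrt (Real.log T))) ∧
    ∀ p q : ℕ × ℕ, 1 ≤ p.2 → p.2 ≤ p.1 → (p.1 : ℝ) ≤ Real.log T ^ B →
      1 ≤ q.2 → q.2 ≤ q.1 → (q.1 : ℝ) ≤ Real.log T ^ B → f p = f q → p.1 * q.2 = q.1 * p.2

/-- TAIL -/
def S_TAIL : Prop := ∀ b a B C : ℝ, 0 < a → 0 < B → 0 < C → ∀ ε : ℝ, 0 < ε → ∃ N₀ : ℕ, ∀ N : ℕ, N₀ ≤ N →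
  ∀ᶠ T : ℝ in atTop, ∀ (κ : ℝ) (w : ℝ → ℝ), Wt C κ T w → ∀ Y : ℕ, N ≤ Y → (Y : ℝ) ≤ Real.log T ^ B →
    ∫ t in (T / 2)..(3 * T), w t * Z2 t * ‖AA b a Y t - AA b a N t‖ ^ 2 ≤ ε * (T * Real.log T)

/-- the smooth cut-off `v(y) = (1/(2√π)) ∫_{-∞}^y exp(-u²/4) du` -/
def vv (y : ℝ) : ℝ := 1 / (2 * Real.sqrt Real.pi) * ∫ u in Set.Iic y, Real.exp (-(u ^ 2 / 4))

/-- VA: the integral for the cut-off, and its size -/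
def S_VA : Prop := (∀ c y : ℝ, 0 < c →
    Integrable (fun τ : ℝ => Complex.exp (y * (c + τ * I) + (c + τ * I) ^ 2) / (c + τ * I)) ∧
    (1 / (2 * Real.pi : ℂ)) * ∫ τ : ℝ, Complex.exp (y * (c + τ * I) + (c + τ * I) ^ 2) / (c + τ * I) = (vv y : ℂ)) ∧
  (∀ y : ℝ, 0 ≤ vv y ∧ vv y ≤ 1) ∧ (∀ y : ℝ, y ≤ 0 → vv y ≤ Real.exp (-(y ^ 2 / 4))) ∧
  (∀ y : ℝ, 0 ≤ y → 1 - vv y ≤ Real.exp (-(y ^ 2 / 4)))

/-- VB: the rectangle -/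
def S_VB : Prop := ∀ (F : ℂ → ℂ) (U : Set ℂ) (X η H c B : ℝ), IsOpen U → DifferentiableOn ℂ F U → 1 ≤ X →
  0 < η → η ≤ 1 → 0 < c → c ≤ 1 → 1 ≤ H → 0 ≤ B →
  (∀ z : ℂ, -η ≤ z.re → z.re ≤ c → |z.im| ≤ H → z ∈ U ∧ ‖F z‖ ≤ B) →
  ‖F 0 - (1 / (2 * Real.pi : ℂ)) * ∫ τ in (-H)..H, F (c + τ * I) *
      (Complex.exp (Real.log X * (c + τ * I) + (c + τ * I) ^ 2) / (c + τ * I))‖ ≤
    10 * B * (X ^ (-η) / η + X ^ c * Real.exp (-(H ^ 2)))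

/-- the Dirichlet series of `ζ^b` -/
def LS (b : ℝ) (s : ℂ) : ℂ := ∑' n : ℕ, ((dv b n : ℝ) : ℂ) * (n : ℂ) ^ (-s)

/-- ZC1: its modulus for `Re s > 1` -/
def S_ZC1 : Prop := ∀ (b : ℝ) (s : ℂ), 1 < s.re → ‖LS b s‖ = ‖riemannZeta s‖ ^ b

/-- ZC2: convergence, holomorphy, size -/
def S_ZC2 : Prop := ∀ b : ℝ,
  (∀ s : ℂ, 1 < s.re → Summable (fun n : ℕ => ‖((dv b n : ℝ) : ℂ) * (n : ℂ) ^ (-s)‖)) ∧
  DifferentiableOn ℂ (LS b) {s : ℂ | 1 < s.re} ∧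
  (∀ c : ℝ, 0 < c → c ≤ 1 → Summable (fun n : ℕ => |dv b n| * (n : ℝ) ^ (-(1 + c))) ∧
    ∑' n : ℕ, |dv b n| * (n : ℝ) ^ (-(1 + c)) ≤ (2 / c) ^ |b|)

/-- the rectangle around `1 + iu` -/
def Rc (u η H : ℝ) : Set ℂ := {s : ℂ | 1 - η < s.re ∧ |s.im - u| < H}

/-- ZD: analytic continuation of the Dirichlet series of `ζ^b` -/
def S_ZD : Prop := ∀ (b u η H : ℝ), 0 < η → 0 < H → H < u → (∀ s ∈ Rc u η H, riemannZeta s ≠ 0) →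
  ∃ F : ℂ → ℂ, DifferentiableOn ℂ F (Rc u η H) ∧ (∀ s ∈ Rc u η H, ‖F s‖ = ‖riemannZeta s‖ ^ b) ∧
    ∀ s ∈ Rc u η H, 1 < s.re → F s = LS b s

/-- the smoothed Dirichlet series on the line `Re s = 1` -/
def SM (b X u : ℝ) : ℂ := ∑' n : ℕ, ((dv b n * vv (Real.log X - Real.log n) : ℝ) : ℂ) * (n : ℂ) ^ (-(1 + u * I))

/-- ZL: the smoothed series as a truncated line integral -/
def S_ZL : Prop := ∀ b u X c H : ℝ, 1 ≤ X → 0 < c → c ≤ 1 → 1 ≤ H →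
  ‖SM b X u - (1 / (2 * Real.pi : ℂ)) * ∫ τ in (-H)..H, LS b (1 + u * I + (c + τ * I)) *
      (Complex.exp (Real.log X * (c + τ * I) + (c + τ * I) ^ 2) / (c + τ * I))‖ ≤
    10 * (2 / c) ^ |b| * X ^ c / c * Real.exp (-(H ^ 2))

/-- ZR: the region -/
def S_ZR : Prop := ∀ b a : ℝ, 0 < a → ∃ δ K : ℝ, 0 < δ ∧ δ < 1 ∧ 0 < K ∧ ∀ᶠ T : ℝ in atTop,
  ∀ s : ℂ, a * T / 4 ≤ s.im → s.im ≤ 4 * a * T → 1 - Real.log T ^ (δ - 1) ≤ s.re → s.re ≤ 2 →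
    riemannZeta s ≠ 0 ∧ ‖riemannZeta s‖ ^ b ≤ Real.log T ^ K

/-- ZE1: the smoothed series approximates `|ζ(1+iu)|^b` -/
def S_ZE1 : Prop := ∀ b a K : ℝ, 0 < a → ∀ᶠ T : ℝ in atTop, ∃ X : ℝ, 1 ≤ X ∧
  Real.log T ^ (1 / 2 : ℝ) ≤ Real.log X ∧ Real.log X ≤ Real.log T / 8 ∧
  ∀ u ∈ Set.Icc (a * T / 2) (3 * a * T), |‖riemannZeta (1 + u * I)‖ ^ b - ‖SM b X u‖| ≤ Real.log T ^ (-K)

/-- ZE: short smooth approximations of `ζ(1+iat)^b` up to a unimodular factor -/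
def S_ZE : Prop := ∀ b a K B : ℝ, 0 < a → ∀ᶠ T : ℝ in atTop, ∃ (M : ℕ) (v : ℕ → ℝ),
  (M : ℝ) ≤ T ^ (1 / 4 : ℝ) ∧ (∀ n, |v n| ≤ 1) ∧
  (∀ n : ℕ, 1 ≤ n → (n : ℝ) ≤ Real.log T ^ B → n ≤ M ∧ |v n - 1| ≤ Real.log T ^ (-K)) ∧
  ∀ t ∈ Set.Icc (T / 2) (3 * T), |‖riemannZeta (1 + a * t * I)‖ ^ b -
    ‖∑ n ∈ Icc 1 M, ((dv b n * v n / n : ℝ) : ℂ) * e (-(a * Real.log n * t))‖| ≤ Real.log T ^ (-K)

/-- M4: the fourth moment of zeta -/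
def S_M4 : Prop := ∃ K : ℝ, 0 < K ∧ ∀ᶠ T : ℝ in atTop,
  ∫ t in (T / 2)..(3 * T), Z2 t ^ 2 ≤ K * (T * Real.log T ^ 4)

/-- MVT: mean values of short polynomials -/
def S_MVT : Prop := ∀ a : ℝ, 0 < a → ∃ K : ℝ, 0 < K ∧ ∀ (T : ℝ) (M : ℕ) (c : ℕ → ℝ), 2 ≤ T →
  (M : ℝ) ≤ T ^ (1 / 4 : ℝ) →
  ∫ t in (T / 2)..(3 * T), ‖∑ n ∈ Icc 1 M, (c n : ℂ) * e (-(a * Real.log n * t))‖ ^ 2 ≤
    K * T * ∑ n ∈ Icc 1 M, c n ^ 2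

/-- L2: the mean square approximation -/
def S_L2 : Prop := ∀ b a K : ℝ, 0 < a → 0 < K → ∃ B : ℝ, 0 < B ∧ ∀ᶠ T : ℝ in atTop,
  ∫ t in (T / 2)..(3 * T), (‖riemannZeta (1 + a * t * I)‖ ^ b - ‖AA b a ⌊Real.log T ^ B⌋₊ t‖) ^ 2 ≤
    T * Real.log T ^ (-K)

/-- WL2: the same with the weight `|ζ(1/2+it)|²` -/
def S_WL2 : Prop := ∀ b a : ℝ, 0 < a → ∃ B : ℝ, 0 < B ∧ ∀ ε : ℝ, 0 < ε → ∀ᶠ T : ℝ in atTop,
  ∫ t in (T / 2)..(3 * T), Z2 t * (‖riemannZeta (1 + a * t * I)‖ ^ b - ‖AA b a ⌊Real.log T ^ B⌋₊ t‖) ^ 2 ≤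
    ε * (T * Real.log T)

/-- CORE: approximation by polynomials of fixed length -/
def S_CORE : Prop := ∀ b a C : ℝ, 0 < a → 0 < C → ∀ ε : ℝ, 0 < ε → ∃ N₀ : ℕ, ∀ N : ℕ, N₀ ≤ N →
  ∀ᶠ T : ℝ in atTop, ∀ (κ : ℝ) (w : ℝ → ℝ), Wt C κ T w →
    ∫ t in (T / 2)..(3 * T), w t * Z2 t * (‖riemannZeta (1 + a * t * I)‖ ^ b - ‖AA b a N t‖) ^ 2 ≤
      ε * (T * Real.log T)

/-- FIXA: the polynomials of fixed length -/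
def S_FIXA : Prop := ∀ (b a C : ℝ) (N : ℕ), 0 < a → 0 < C → ∀ ε : ℝ, 0 < ε → ∀ᶠ T : ℝ in atTop,
  ∀ (κ : ℝ) (w : ℝ → ℝ), Wt C κ T w →
    |(∫ t in (T / 2)..(3 * T), w t * Z2 t * ‖AA b a N t‖ ^ 2) - κ * DD b a N * (T * Real.log T)| ≤
      ε * (T * Real.log T)

/-- DDL: the truncated constants converge -/
def S_DDL : Prop := ∀ b a : ℝ, 0 < a → ∃ D : ℝ, 0 ≤ D ∧ Tendsto (fun N => DD b a N) atTop (𝓝 D)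

/-- LIM: the limit for every real exponent -/
def S_LIM : Prop := ∀ b a : ℝ, 0 < a → ∃ D : ℝ, 0 ≤ D ∧ Tendsto (fun N => DD b a N) atTop (𝓝 D) ∧
  Tendsto (fun T : ℝ => (∫ t in T..(2 * T), Z2 t * (‖riemannZeta (1 + a * t * I)‖ ^ b) ^ 2) / (T * Real.log T))
    atTop (𝓝 D)

/-- MAIN: the theorem, with a positive constant -/
def S_MAIN : Prop := ∀ a β : ℝ, 0 < a → 0 < β → ∃ D : ℝ, 0 < D ∧
  Tendsto (fun N => DD (-β) a N) atTop (𝓝 D) ∧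
  Tendsto (fun T : ℝ => (∫ t in T..(2 * T), (‖riemannZeta (1 / 2 + t * I)‖ /
    ‖riemannZeta (1 + a * t * I)‖ ^ β) ^ 2) / (T * Real.log T)) atTop (𝓝 D)

end

end Pool.Agent.W2helper8.ZQ
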