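import Pool.Agent.W2helper8.ZQ.Stm

set_option autoImplicit false

namespace Pool.Agent.W2helper8.ZQ

open Finset Filter Topology MeasureTheory Complex

theorem p_jb (h1 : S_RED) (h2 : S_KER) (h3 : S_KSB) : S_JB := by
  intro C hC
  obtain ⟨K1, hK1, r1⟩ := h1 C hC
  obtain ⟨K2, hK2, r2⟩ := h2 C hC
  obtain ⟨K3, hK3, r3⟩ := h3
  refine ⟨K1 + 3 * K2 * K3, by positivity, fun T κ w hT hw x hx hxT => ?_⟩
  obtain ⟨h, k, hg, hk⟩ := r3 T x hT hx hxT
  refine ⟨h, k, hg, ?_⟩
  have hT0 : 0 < T := by linarith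
  have a1 := r1 T κ w hT hw (Real.log x)
  have a2 := r2 T κ w hT hw x (by linarith)
  have hk1 : (1 : ℝ) ≤ k := by exact_mod_cast hg.2.1
  have hsx : 0 < Real.sqrt x := Real.sqrt_pos.2 (by linarith)
  have hl2 : Real.log 2 ≤ Real.log T := Real.log_le_log (by norm_num) hT
  have hl : 0.69 ≤ Real.log T := by
    have := Real.log_two_gt_d9
    linarith
  set L := Real.log T with hL
  set q := Real.sqrt L with hq
  have hq0 : 1 / 2 ≤ q := by
    rw [hq]
    apply Real.le_sqrt_of_sq_le
    norm_num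
    linarith
  have hR : 0 ≤ L / (k * Real.sqrt x) := by
    apply div_nonneg (by linarith)
    positivity
  set R := L / (k * Real.sqrt x) with hRd
  have b2 : ‖DS w T (Real.log x)‖ ≤ K2 * T * (K3 * (1 + R)) :=
    a2.trans (mul_le_mul_of_nonneg_left hk (by positivity))
  have tri : ‖J w T (Real.log x)‖ ≤ ‖J w T (Real.log x) - DS w T (Real.log x)‖ + ‖DS w T (Real.log x)‖ := by
    have := norm_add_le (J w T (Real.log x) - DS w T (Real.log x)) (DS w T (Real.log x))
    simpa using this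
  have p1 : 0 ≤ K2 * K3 * T := by positivity
  have p2 : 0 ≤ K1 * T := by positivity
  calc ‖J w T (Real.log x)‖ ≤ K1 * (T * q) + K2 * T * (K3 * (1 + R)) := by linarith
    _ ≤ (K1 + 3 * K2 * K3) * T * (R + q) := by
      have e1 : K2 * T * (K3 * (1 + R)) = K2 * K3 * T * (1 + R) := by ring
      have e2 : (K1 + 3 * K2 * K3) * T * (R + q) = K1 * T * (R + q) + K2 * K3 * T * (3 * R + 3 * q) := by ring
      rw [e1, e2]
      have f1 : K2 * K3 * T * (1 + R) ≤ K2 * K3 * T * (3 * R + 3 * q) :=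
        mul_le_mul_of_nonneg_left (by linarith) p1
      have f2 : K1 * (T * q) ≤ K1 * T * (R + q) := by
        have : K1 * T * q ≤ K1 * T * (R + q) := mul_le_mul_of_nonneg_left (by linarith) p2
        linarith
      linarith

end Pool.Agent.W2helper8.ZQ
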