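import Pool.Agent.W2helper8.ZQ.ZR0
import Pool.Agent.Y957.VK.Fin1

set_option autoImplicit false

namespace Pool.Agent.W2helper8.ZQ

theorem p_zr : S_ZR := p_zr0 Pool.Agent.Y957.VK.zf_all Pool.Agent.Y957.VK.zeta_all

end Pool.Agent.W2helper8.ZQ
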