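import Pool.Agent.W2helper8.ZQ.CORE
import Pool.Agent.W2helper8.ZQ.JB
import Pool.Agent.W2helper8.ZQ.ZR
import Pool.Agent.W2helper16.ZQ.ZE1
import Pool.Agent.W2helper19.ZQ.KB
import Pool.Agent.W2helper19.ZQ.KC
import Pool.Agent.W2helper25.ZQ.ZL
import Pool.Agent.W2helper46.ZQ.DDL
import Pool.Agent.W2helper46.ZQ.LIM
import Pool.Agent.W2helper46.ZQ.SUM
import Pool.Agent.W2helper49.ZQ.VA
import Pool.Agent.W2helper51.ZQ.KA
import Pool.Agent.W2helper51.ZQ.KSB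
import Pool.Agent.W2helper52.ZQ.MVT
import Pool.Agent.W2helper54.ZQ.TAIL
import Pool.Agent.W2helper54.ZQ.VB
import Pool.Agent.W2helper56.ZQ.MAIN
import Pool.Agent.W2helper59.ZQ.FIXA
import Pool.Agent.W2helper59.ZQ.M4
import Pool.Agent.W2helper68.ZQ.ZC1
import Pool.Agent.W2helper69.ZQ.KER
import Pool.Agent.W2helper71.ZQ.IRR
import Pool.Agent.W2helper71.ZQ.RED
import Pool.Agent.W2helper71.ZQ.ZD
import Pool.Agent.W2helper78.ZQ.EXPJ
import Pool.Agent.W2helper78.ZQ.PAIR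
import Pool.Agent.W2helper78.ZQ.TP
import Pool.Agent.W2helper80.ZQ.RAT
import Pool.Agent.W2helper82.ZQ.ZC2
import Pool.Agent.W2helper85.ZQ.FIX
import Pool.Agent.W2helper87.ZQ.L2
import Pool.Agent.W2helper87.ZQ.WL2
import Pool.Agent.W2helper87.ZQ.ZE
import Pool.Agent.W2helper92.ZQ.DV
import Pool.Agent.W2helper92.ZQ.Trap
import Pool.Agent.W2helper98.ZQ.APX

/-! Project ZQ: assembly. -/

set_option autoImplicit false

namespace Pool.Agent.W2helper8.ZQ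

theorem ksb_all : S_KSB :=
  Pool.Agent.W2helper51.ZQ.p_ksb Pool.Agent.W2helper51.ZQ.p_ka
    (Pool.Agent.W2helper19.ZQ.p_kc Pool.Agent.W2helper19.ZQ.p_kb) Pool.Agent.W2helper19.ZQ.p_kd

theorem red_all : S_RED :=
  Pool.Agent.W2helper71.ZQ.p_red Pool.Agent.W2helper98.ZQ.p_apx Pool.Agent.W2helper69.ZQ.p_ker ksb_all

theorem jb_all : S_JB := p_jb red_all Pool.Agent.W2helper69.ZQ.p_ker ksb_all

theorem fix_all : S_FIX :=
  Pool.Agent.W2helper85.ZQ.p_fix red_all Pool.Agent.W2helper69.ZQ.p_ker Pool.Agent.W2helper80.ZQ.p_rat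
    (Pool.Agent.W2helper71.ZQ.p_irr ksb_all)

theorem tail_all : S_TAIL :=
  Pool.Agent.W2helper54.ZQ.p_tail (Pool.Agent.W2helper78.ZQ.p_tp jb_all Pool.Agent.W2helper78.ZQ.p_pair)
    Pool.Agent.W2helper92.ZQ.p_dv Pool.Agent.W2helper46.ZQ.p_sum Pool.Agent.W2helper78.ZQ.p_expj

theorem zl_all : S_ZL := Pool.Agent.W2helper25.ZQ.p_zl Pool.Agent.W2helper49.ZQ.p_va Pool.Agent.W2helper82.ZQ.p_zc2

theorem ze1_all : S_ZE1 :=
  Pool.Agent.W2helper16.ZQ.p_ze1 Pool.Agent.W2helper54.ZQ.p_vb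
    (Pool.Agent.W2helper71.ZQ.p_zd Pool.Agent.W2helper68.ZQ.ZC1.p_zc1 Pool.Agent.W2helper82.ZQ.p_zc2) p_zr zl_all

theorem ze_all : S_ZE := Pool.Agent.W2helper87.ZQ.p_ze ze1_all Pool.Agent.W2helper49.ZQ.p_va Pool.Agent.W2helper92.ZQ.p_dv

theorem l2_all : S_L2 := Pool.Agent.W2helper87.ZQ.p_l2 ze_all Pool.Agent.W2helper52.ZQ.p_mvt Pool.Agent.W2helper92.ZQ.p_dv

theorem wl2_all : S_WL2 :=
  Pool.Agent.W2helper87.ZQ.p_wl2 l2_all Pool.Agent.W2helper59.ZQ.p_m4 p_zr Pool.Agent.W2helper92.ZQ.p_dv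

theorem core_all : S_CORE := p_core wl2_all tail_all

theorem fixa_all : S_FIXA := Pool.Agent.W2helper59.ZQ.p_fixa fix_all Pool.Agent.W2helper78.ZQ.p_expj

theorem lim_all : S_LIM :=
  Pool.Agent.W2helper46.ZQ.p_lim
    (Pool.Agent.W2helper46.ZQ.p_ddl Pool.Agent.W2helper92.ZQ.p_trap core_all fixa_all)
    Pool.Agent.W2helper92.ZQ.p_trap core_all fixa_all

theorem main_all : S_MAIN := Pool.Agent.W2helper56.ZQ.p_main lim_all

end Pool.Agent.W2helper8.ZQ
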