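import Pool.Agent.W2helper8.ZQ.Stm

set_option autoImplicit false

namespace Pool.Agent.W2helper8.ZQ

open Finset Filter Topology MeasureTheory Complex

theorem p_core (h1 : S_WL2) (h2 : S_TAIL) : S_CORE := by
  intro b a C ha hC ε hε
  obtain ⟨B, hB, hw⟩ := h1 b a ha
  obtain ⟨N₀, hN⟩ := h2 b a B C ha hB hC (ε / 4) (by positivity)
  refine ⟨N₀, fun N hNN => ?_⟩
  have hlog : Tendsto (fun T : ℝ => Real.log T ^ B) atTop atTop :=
    (tendsto_rpow_atTop hB).comp Real.tendsto_log_atTop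
  filter_upwards [hN N hNN, hw (ε / 4) (by positivity), eventually_ge_atTop (2 : ℝ),
    hlog.eventually_ge_atTop ((N : ℝ) + 1)] with T q1 q2 hT q3 κ w hwt
  have hT0 : 0 < T := by linarith
  set Y : ℕ := ⌊Real.log T ^ B⌋₊ with hY
  have hp : 0 ≤ Real.log T ^ B := by
    have : (0 : ℝ) ≤ N := Nat.cast_nonneg N
    linarith
  have hNY : N ≤ Y := Nat.le_floor (by linarith)
  have hYB : (Y : ℝ) ≤ Real.log T ^ B := Nat.floor_le hp
  have t1 := q1 κ w hwt Y hNY hYB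
  have hab : T / 2 ≤ 3 * T := by linarith
  -- continuity
  have hzc : ContinuousOn (fun t : ℝ => ‖riemannZeta (1 + a * t * I)‖ ^ b) (Set.Icc (T / 2) (3 * T)) := by
    intro t ht
    exact (zpow_contAt b ha (by linarith [ht.1])).continuousWithinAt
  have i0 : IntervalIntegrable (fun t => w t * Z2 t * (‖riemannZeta (1 + a * t * I)‖ ^ b - ‖AA b a N t‖) ^ 2)
      volume (T / 2) (3 * T) := by
    refine ContinuousOn.intervalIntegrable ?_
    rw [Set.uIcc_of_le hab]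
    exact ((hwt.cont.mul Z2_cont).continuousOn).mul ((hzc.sub (AA_cont b a N).norm.continuousOn).pow 2)
  have i1 : IntervalIntegrable (fun t => Z2 t * (‖riemannZeta (1 + a * t * I)‖ ^ b - ‖AA b a Y t‖) ^ 2)
      volume (T / 2) (3 * T) := by
    refine ContinuousOn.intervalIntegrable ?_
    rw [Set.uIcc_of_le hab]
    exact (Z2_cont.continuousOn).mul ((hzc.sub (AA_cont b a Y).norm.continuousOn).pow 2)
  have i2 : IntervalIntegrable (fun t => w t * Z2 t * ‖AA b a Y t - AA b a N t‖ ^ 2)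
      volume (T / 2) (3 * T) :=
    ((hwt.cont.mul Z2_cont).mul (((AA_cont b a Y).sub (AA_cont b a N)).norm.pow 2)).intervalIntegrable _ _
  have key : ∀ t ∈ Set.Icc (T / 2) (3 * T),
      w t * Z2 t * (‖riemannZeta (1 + a * t * I)‖ ^ b - ‖AA b a N t‖) ^ 2 ≤
      2 * (Z2 t * (‖riemannZeta (1 + a * t * I)‖ ^ b - ‖AA b a Y t‖) ^ 2) +
      2 * (w t * Z2 t * ‖AA b a Y t - AA b a N t‖ ^ 2) := by
    intro t _
    obtain ⟨u, hu⟩ : ∃ u : ℝ, u = ‖riemannZeta (1 + a * t * I)‖ ^ b := ⟨_, rfl⟩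
    rw [← hu]
    have g1 : |‖AA b a Y t‖ - ‖AA b a N t‖| ≤ ‖AA b a Y t - AA b a N t‖ := abs_norm_sub_norm_le _ _
    have g2 : (‖AA b a Y t‖ - ‖AA b a N t‖) ^ 2 ≤ ‖AA b a Y t - AA b a N t‖ ^ 2 := by
      rw [← sq_abs]
      exact pow_le_pow_left₀ (abs_nonneg _) g1 2
    have g3 : (u - ‖AA b a N t‖) ^ 2 ≤ 2 * (u - ‖AA b a Y t‖) ^ 2 + 2 * ‖AA b a Y t - AA b a N t‖ ^ 2 := by
      nlinarith [sq_nonneg ((u - ‖AA b a Y t‖) - (‖AA b a Y t‖ - ‖AA b a N t‖))]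
    have w0 := hwt.nn t
    have w1 := hwt.le1 t
    have z0 := Z2_nonneg t
    have g4 : w t * Z2 t * (u - ‖AA b a N t‖) ^ 2 ≤
        w t * Z2 t * (2 * (u - ‖AA b a Y t‖) ^ 2 + 2 * ‖AA b a Y t - AA b a N t‖ ^ 2) :=
      mul_le_mul_of_nonneg_left g3 (mul_nonneg w0 z0)
    have g5 : w t * (Z2 t * (u - ‖AA b a Y t‖) ^ 2) ≤ 1 * (Z2 t * (u - ‖AA b a Y t‖) ^ 2) :=
      mul_le_mul_of_nonneg_right w1 (mul_nonneg z0 (sq_nonneg _))
    nlinarith
  calc ∫ t in (T / 2)..(3 * T), w t * Z2 t * (‖riemannZeta (1 + a * t * I)‖ ^ b - ‖AA b a N t‖) ^ 2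
      ≤ ∫ t in (T / 2)..(3 * T), (2 * (Z2 t * (‖riemannZeta (1 + a * t * I)‖ ^ b - ‖AA b a Y t‖) ^ 2) +
          2 * (w t * Z2 t * ‖AA b a Y t - AA b a N t‖ ^ 2)) :=
        intervalIntegral.integral_mono_on hab i0 ((i1.const_mul 2).add (i2.const_mul 2)) key
    _ = 2 * (∫ t in (T / 2)..(3 * T), Z2 t * (‖riemannZeta (1 + a * t * I)‖ ^ b - ‖AA b a Y t‖) ^ 2) +
          2 * ∫ t in (T / 2)..(3 * T), w t * Z2 t * ‖AA b a Y t - AA b a N t‖ ^ 2 := by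
        rw [intervalIntegral.integral_add (i1.const_mul 2) (i2.const_mul 2),
          intervalIntegral.integral_const_mul, intervalIntegral.integral_const_mul]
    _ ≤ ε * (T * Real.log T) := by linarith

end Pool.Agent.W2helper8.ZQ
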