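import Pool.Agent.W2helper8.ZQ.Stm

/-!
# Project ZQ: paper proofs of the pieces (all constants are free; `K` changes from line to line)

Inputs in the library:
* `Pool.Agent.TH158.FM.fourth_all : 1000 ≤ T → ∫ t in 0..T, ‖riemannZeta (pt (1/2) t)‖^4 ≤ 4/5 (T log^4 T)` (TH158/FM/Main.lean)
* `Pool.Agent.TH321.GF.AQ_pw (u) (X : ℕ) : 1 ≤ X → 0 < u → u ≤ X → ‖z u - PN X u‖ ≤ 3 √X/(1+u) + 3/(2√X)` (TH321/GF/AQ.lean)
* `Pool.Agent.Y957.VK.zf_all : S_ZF`, `zeta_all : S_ZETA` (Y957/VK/Fin1.lean, statements in Y957/VK/Stm.lean): zero free region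
* `Pool.Agent.H306R2` Arith.lean: `dv`, `lc`, `dA_mult`, `dA_mul`, `dA_one`, `dv_nonneg`, `dv_mono`, `PB_dA`.

TRAP. `w⁺` = 1 on [T,2T], linear on [T-εT,T] and [2T,2T+εT]; `w⁻` = 1 on [T+εT,2T-εT], linear on [T,T+εT],
[2T-εT,2T]. Mass: trapezoid. dec: integrate by parts (or: w is the average over u in [0,εT] of indicator functions of
intervals, so ∫ w e(lt) = (1/(εT)) × (double primitive at 4 points)/l²); C = 4/ε.

APX. From AQ_pw with X = Ns T = ⌈4T⌉ (≤ 5T), u = t in [T/2,3T].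

KER. Term by term: l = log x + log n - log m. ‖∫ w e(lt)‖ ≤ 5T/2 (0 ≤ w ≤ 1) and ≤ C/(T l²) if l ≠ 0. If |Tl| ≤ 1 then
5T/2 ≤ 5T/(1+(Tl)²); else C/(T l²) = C T/(Tl)² ≤ 2 C T/(1+(Tl)²).

KA. N = Ns T ≤ 5T. Pairs with m < xn/2 or m > 2xn: |log(xn/m)| ≥ log 2, term ≤ 3/(T² √m√n), sum ≤ 3 (2√N)²/T² ≤ K.
Pairs with xn/2 ≤ m ≤ 2xn (so xn ≤ 2N): |log(m/(xn))| ≥ |m-xn|/(2xn) (for r in [1/2,2]: |log r| ≥ |r-1|/2) and
1/√m ≤ √2/√(xn). For fixed n: the m nearest to xn gives ≤ the term of NS times √2; the others have |m-xn| ≥ |m-m₀|/2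
(m₀ = round(xn)), so their sum is ≤ 2 Σ_{j≥1} (4xn/(Tj))² ≤ 60 (xn/T)²; times √2/(n√x), summed over n ≤ 2N/x:
≤ K x^{3/2}/T² · (2N/x)² ≤ K.

KB. s_n = xn - round(xn), |s_n| = dz(xn). For n ≠ n' in the block |s_n - s_n'| ≥ dz(x|n-n'|) ≥ 1/(2k). Hence
j_n = ⌊2k s_n⌋ are distinct integers, and |s_n| ≥ (|j_n|-1)/(2k). Sum ≤ Σ_{j∈ℤ} 1/(1+(max(|j|-1,0)/(2ky))²) ≤ 3 + 2·Σ_{i≥1}
min(1,(2ky/i)²) ≤ 3 + 8ky (Σ_{i≥1} min(1,(R/i)²) ≤ 2R+... any constant).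

KC. Block i = {ik ≤ n < (i+1)k}. i ≥ 1: 1/(n√x) ≤ 1/(ik√x), 2xn/T ≤ 4xik/T =: y, KB gives ≤ (1/(ik√x)) K (1+4xik²/T)
= K/(ik√x) + 4K√x k/T. Blocks with i ≤ 2N/(xk), N ≤ 5T: sum ≤ K(1+log(2N))/(k√x) + 4K√x k/T·2N/(xk) ≤ K log T/(k√x) + K.
i = 0: 1 ≤ n < k, dz ≥ 1/(2k): term ≤ (1/(n√x)) (2xn·2k/T)² = 16 x^{3/2} n k²/T², sum ≤ 16 x^{3/2}k⁴/T² ≤ 16 T^{3/4-1} ≤ 16.

KD. k = the least positive integer with dz(kx) ≤ 1/Q (exists ≤ Q by Dirichlet, Mathlib `Real.exists_int_int_abs_mul_sub_le`);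
h = round(kx) (≥ 1 as kx ≥ 1). Coprime: a common divisor d > 1 gives |(k/d)x - h/d| ≤ 1/(dQ), contradiction to minimality.
For 1 ≤ r < k: if k > Q/2 then dz(xr) > 1/Q > 1/(2k). If k ≤ Q/2: xr = hr/k + θ r/(kQ), |θ| ≤ 1, hr/k is not an integer,
so dz(xr) ≥ 1/k - r/(kQ) ≥ 1/k - 1/(2k).

KSB. From KA, KC, KD with Q = T^{1/4}.

RED. |DN|² e(φt) = Σ_{m,n} (1/√(mn)) e((φ+log n-log m)t), so DS w T φ = ∫ w |DN|² e(φt). |Z2 - |DN|²| ≤ 2K|DN| + K² (APX).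
∫ w|DN| ≤ (∫w)^{1/2} (∫w|DN|²)^{1/2}, and ∫w|DN|² = DS w T 0 ≤ K T KS 1 T ≤ K T log T (KER, KSB at x = 1).

JB. RED + KER + KSB (1 ≤ √(log T)/√(log 2)).

RAT. x = h/k ≥ 1. Terms with hn = km: n = kg, m = hg, g ≤ N/h: Σ κT/(g√(hk)) = κT (log T + O(1))/√(hk) (N = ⌈4T⌉;
κ ≤ 5/2). Others: far pairs as in KA (bounded by C/(T log²2) Σ 1/√(mn) ≤ K T); near pairs: |∫w e(lt)| ≤ C/(T l²) ≤
C(2xn)²/(T|m-xn|²), |m-xn| = j/k with an integer j ≥ 1 (each j at most twice), so Σ_m ≤ 4 C k² (2xn)²/T; times √2/(n√x),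
sum over n ≤ 2N/x: ≤ K T.

IRR. KSB: KS x T ≤ K(1+log T/k(T)) with |k(T) x - h| ≤ T^{-1/4}; k(T) → ∞ since min_{k≤k₀} dz(kx) > 0 for irrational x.

FIX. x ≥ 1: rational → RED + RAT, irrational → RED + KER + IRR (cc x = 0). x < 1: J w T (-φ) = conj (J w T φ) (`J_conj`),
cc(1/x) = cc x (reduced fractions are unique). κ ≤ 5/2 from mass, w ≤ 1.

DV. |lc b m| ≤ lc |b| m, so |dv b n| ≤ dv |b| n ≤ dv j n with a natural j ≥ |b|, which is the j-fold divisor function ≤ C n^ε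
(look for it in the library: `PB_dA`, or: Π over p^e || n of (e+1)^j ≤ C_ε n^ε).

PAIR. If m/n ≠ m'/n' then |m/n - m'/n'| ≥ 1/(nn') ≥ (log T)^{-2B}; mean value theorem on [1, (log T)^B] for x^a:
|x^a - y^a| ≥ a (log T)^{-B|a-1|} |x-y|, larger than 2 T^{-1/4} for large T; but both are within T^{-1/4}/k of h/k.

SUM. (mn)^{-15/16} ≤ N^{-1/8} (mn)^{-7/8}. Sort by g = gcd(m,n), m = gp, n = gq: (mn)^{-7/8} = g^{-7/4}(pq)^{-7/8}.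
Young: (pq)^{-7/8}(hk)^{-1/2} ≤ (pq)^{-21/16} + (hk)^{-3/2}. For fixed g the pairs (p,q) are distinct, and the pairs (h,k) = f
are distinct (equal f → proportional → equal reduced pairs). So the sum is ≤ Σ_g g^{-7/4} (ζ(21/16)² + ζ(3/2)²).

EXPJ. |Σ c_n e(-a log n t)|² = Σ_{m,n} c_m c_n e(a(log n - log m) t); exchange finite sum and integral.

TP. JB (x = (m/n)^a with p = (m,n), log x = a(log m - log n), x ≤ (log T)^{aB} ≤ √T) gives h,k (choose; f p = (h,k)), and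
h ≤ kx+1 ≤ 2kx gives 1/(k√x) ≤ √2/√(hk). PAIR gives the last claim.

TAIL. (Use TP instead of JB and PAIR directly.) AA Y - AA N = sum over Ioc N Y. EXPJ with c_n = dv b n / n, |c_n| ≤ C n^{ε₀-1}, ε₀ = min(1/16, 1/(16B)). For n ≥ m:
x = (n/m)^a ≥ 1, log x = a(log n - log m), x ≤ (log T)^{aB} ≤ √T; for n < m use J_conj. JB: ‖J‖ ≤ K T(log T/(k√x) + √log T),
and h ≤ kx+1 ≤ 2kx gives 1/(k√x) ≤ √2/√(hk). First part: SUM (PAIR gives its hypothesis, with f = the chosen (h,k), N+1 for N):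
≤ K T log T (N+1)^{-1/8}. Second: K T √(log T) (Σ_{n≤Y} n^{ε₀-1})² = o(T log T).

VA. For c > 0: e^{y(c+iτ)}/(c+iτ) = ∫_{-∞}^y e^{u(c+iτ)} du; Fubini; Gaussian integral (Mathlib integral_cexp_quadratic,
or fourier transform of Gaussian) (1/2π)∫ e^{u(c+iτ)+(c+iτ)²} dτ = (1/(2√π)) e^{-u²/4}. Bounds: ∫_{-∞}^∞ e^{-u²/4} = 2√π,
∫_Y^∞ e^{-u²/4} ≤ e^{-Y²/4} ∫_0^∞ e^{-u²/4} for Y ≥ 0.

VB. Cauchy's theorem on the rectangle [-η,c]×[-H,H] for (F(z)e^{z log X + z²} - F(0))/z (dslope) and the integral of 1/z over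
the boundary, or any residue theorem for rectangles in the library. Left side ≤ (1/2π) B X^{-η} e^{η²} √π/η, horizontal sides
≤ (1/2π)·2·B X^c e^{c²-H²} each (length ≤ 2, |z| ≥ H ≥ 1).

ZC1, ZC2. Euler product: `EulerProduct` in Mathlib for the multiplicative dv b; Σ_e lc b e x^e = (1-x)^{-b} for |x| < 1 (see
Pool/Agent/N748/MG/DIA2.lean `hasSum_lC`), ‖(1-p^{-s})^{-b}‖ = ‖1-p^{-s}‖^{-b}; limit of partial products with the Euler product of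
ζ. (Alternatively dA_mul: LS_b LS_{b'} = LS_{b+b'} + continuity in b.) Size: |dv b n| ≤ dv |b| n, sum = ζ(1+c)^{|b|} ≤ (1+1/c)^{|b|}.

ZD. On the convex open set Rc, ζ = exp L (holomorphic logarithm on convex sets: Mathlib or library). On Rc ∩ {Re s > 1} (convex)
H = LS_b · exp(-b L) is holomorphic of modulus 1, hence constant c (`Complex.eqOn_of_isPreconnected_of_isMaxOn_norm`).
F = c exp(b L).

ZR. zf_all and zeta_all with a smaller δ.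

ZL. Whole line integral = SM termwise (VA with y = log X - log n: n^{-(c+iτ)} X^{c+iτ} = e^{y(c+iτ)}), |τ| > H part ≤
(1/2π) (2/c)^{|b|} X^c e^{c²} (1/c) ∫_{|τ|>H} e^{-τ²} dτ (ZC2).

ZE1, ZE (ZE1 = up to |F(1+iu)| versus SM with X below; ZE = truncation of SM at M). u = at, X = exp((log T)^{1-δ/2}), η = (log T)^{δ-1}/2, c = 1/log X, H = log T, F from ZD for Rc u (2η) (2H) (ZR: bound B =
(log T)^K). VB for z ↦ F(1+iu+z). |τ| > H part of the line integral of LS_b(1+c+iu+iτ) ≤ (2/c)^{|b|} X^c e^{c²} (1/c) ∫_{|τ|>H} e^{-τ²}.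
Whole line: termwise (VA): Σ dv b n n^{-1-iu} vv(log X - log n). v n = vv (log X - log n), M = ⌊T^{1/4}⌋; terms n > M: log(n/X) ≥
(log n)/2, vv ≤ e^{-(log n)²/16} ≤ n^{-3}. n ≤ (log T)^B: 1 - v n ≤ e^{-(log X - log n)²/4}. F(1+iu) has modulus |ζ(1+iu)|^b.

M4. fourth_all at 3T. MVT. Expand; diagonal (5/2)T Σc²; off-diagonal |∫ e(a log(m/n) t)| ≤ 2/(a|log(m/n)|) ≤ 2M/a.

L2. K₁ = K+10 in ZE, B = 4K+40: P = ZE polynomial, (|ζ|^b - |AA|)² ≤ 2(|ζ|^b - |P|)² + 2|P - AA|², P - AA by MVT: coefficients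
dv b n (v n - 1)/n for n ≤ Y and dv b n v n/n for Y < n ≤ M; Σ_{n>Y} dv²/n² ≤ C Y^{-3/4} (DV).

WL2. Cauchy–Schwarz: ∫Z2 (u-v)² ≤ (∫Z2²)^{1/2} (∫(u-v)⁴)^{1/2}, (u-v)² ≤ (u+v)² ≤ 4 (log T)^{2K₀+2} (ZR at Re s = 1; |AA| ≤ Σ|dv|/n ≤ C Y^{2ε}
≤ log T by DV with small ε), L2 with K = 2K₀+20.

CORE. WL2 and TAIL (Y = ⌊(log T)^B⌋, w ≤ 1, (‖A_Y‖-‖A_N‖)² ≤ ‖A_Y-A_N‖²).

FIXA. EXPJ (Icc 1 N = Ioc 0 N) and FIX with x = (n/m)^a; cc x symmetric sum.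

DDL, LIM. TRAP weights with CORE and FIXA; DD ≥ 0 and √DD is Cauchy (Minkowski or u² ≤ (1+η)v²+(1+1/η)(u-v)²); then the sandwich
w⁻ ≤ 1_{[T,2T]} ≤ w⁺, ε → 0.

MAIN. b = -β; positivity: Cauchy–Schwarz (∫Z2)² ≤ ∫Z2|ζ|^{-2β} ∫Z2|ζ|^{2β}, LIM for b = 0 (DD 0 a N = 1), -β, β: 1 ≤ D(-β) D(β).
-/
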