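import Pool.Agent.W2helper8.ZQ.Stm
import Pool.Agent.Y957.VK.Stm

set_option autoImplicit false

namespace Pool.Agent.W2helper8.ZQ

open Finset Filter Topology MeasureTheory Complex

theorem p_zr0 (h1 : Pool.Agent.Y957.VK.S_ZF) (h2 : Pool.Agent.Y957.VK.S_ZETA) : S_ZR := by
  obtain ⟨δ₁, K₁, t₁, hδ₁, hδ₁', hK₁, ht₁, z1⟩ := h1
  obtain ⟨δ₂, K₂, t₂, hδ₂, hδ₂', hK₂, ht₂, z2⟩ := h2
  intro b a ha
  set δ : ℝ := min δ₁ δ₂ / 2 with hδ
  have hm : 0 < min δ₁ δ₂ := lt_min hδ₁ hδ₂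
  have hd0 : 0 < δ := by rw [hδ]; linarith
  have hd1 : δ < δ₁ := by have := min_le_left δ₁ δ₂; rw [hδ]; linarith
  have hd2 : δ < δ₂ := by have := min_le_right δ₁ δ₂; rw [hδ]; linarith
  set K : ℝ := 2 * |b| * K₁ + 2 * |b| + 1 with hK
  have hb0 := abs_nonneg b
  have hK0 : 0 < K := by
    have : 0 ≤ 2 * |b| * K₁ := by positivity
    rw [hK]; linarith
  refine ⟨δ, K, hd0, by linarith, hK0, ?_⟩
  have e1 : Tendsto (fun T : ℝ => Real.log T ^ (δ₁ - δ)) atTop atTop :=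
    (tendsto_rpow_atTop (by linarith)).comp Real.tendsto_log_atTop
  have e2 : Tendsto (fun T : ℝ => Real.log T ^ (δ₂ - δ)) atTop atTop :=
    (tendsto_rpow_atTop (by linarith)).comp Real.tendsto_log_atTop
  have e3 : Tendsto (fun T : ℝ => a * T / 4) atTop atTop := by
    have : (fun T : ℝ => a * T / 4) = fun T => (a / 4) * T := by funext T; ring
    rw [this]
    exact tendsto_id.const_mul_atTop (by positivity)
  filter_upwards [e1.eventually_ge_atTop 2, e2.eventually_ge_atTop 2, e3.eventually_ge_atTop (max t₁ t₂),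
    Real.tendsto_log_atTop.eventually_ge_atTop (max (2 * K₂) (max 2 (Real.log (4 * a)))),
    eventually_ge_atTop (1 : ℝ)] with T g1 g2 g3 g4 g5 s hs1 hs2 hs3 hs4
  set L := Real.log T with hL
  have g41 : 2 * K₂ ≤ L := (le_max_left _ _).trans g4
  have g42 : 2 ≤ L := ((le_max_left _ _).trans (le_max_right _ _)).trans g4
  have g43 : Real.log (4 * a) ≤ L := ((le_max_right _ _).trans (le_max_right _ _)).trans g4
  have hL0 : 0 < L := by linarith
  set t := s.im with ht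
  have ht1 : t₁ ≤ t := (le_max_left _ _).trans (g3.trans hs1)
  have ht2 : t₂ ≤ t := (le_max_right _ _).trans (g3.trans hs1)
  have ht0 : 0 < t := by linarith
  have hab : |t| = t := abs_of_pos ht0
  have hlt1 : 1 ≤ Real.log t := by
    rw [Real.le_log_iff_exp_le ht0]
    have := Real.exp_one_lt_d9
    linarith
  have hlt2 : Real.log t ≤ 2 * L := by
    have : Real.log t ≤ Real.log (4 * a * T) := Real.log_le_log ht0 hs2
    rw [Real.log_mul (by positivity) (by linarith)] at this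
    linarith
  have reg : ∀ d : ℝ, δ < d → d < 1 → 2 ≤ L ^ (d - δ) → 1 - Real.log |t| ^ (d - 1) ≤ s.re := by
    intro d hd hd' hd2
    rw [hab]
    have r1 : (2 * L) ^ (d - 1) ≤ Real.log t ^ (d - 1) :=
      Real.rpow_le_rpow_of_nonpos (by linarith) hlt2 (by linarith)
    have r2 : (2 * L) ^ (d - 1) = 2 ^ (d - 1) * L ^ (d - 1) := Real.mul_rpow (by norm_num) hL0.le
    have r3 : (2 : ℝ) ^ (-1 : ℝ) ≤ 2 ^ (d - 1) := Real.rpow_le_rpow_of_exponent_le (by norm_num) (by linarith)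
    rw [Real.rpow_neg_one] at r3
    have r4 : L ^ (d - 1) = L ^ (δ - 1) * L ^ (d - δ) := by
      rw [← Real.rpow_add hL0]; congr 1; ring
    have r5 : 0 < L ^ (δ - 1) := Real.rpow_pos_of_pos hL0 _
    have r6 : 2 * L ^ (δ - 1) ≤ L ^ (d - 1) := by
      rw [r4, mul_comm]
      exact mul_le_mul_of_nonneg_left hd2 r5.le
    have r7 : L ^ (δ - 1) ≤ (2 * L) ^ (d - 1) := by
      rw [r2]
      calc L ^ (δ - 1) = 2⁻¹ * (2 * L ^ (δ - 1)) := by ring
        _ ≤ 2 ^ (d - 1) * L ^ (d - 1) := mul_le_mul r3 r6 (by positivity) (by positivity)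
    linarith
  have hsd : (⟨s.re, t⟩ : ℂ) = s := by rw [ht]
  have w1 := z1 s.re t (by rw [hab]; exact ht1) (reg δ₁ hd1 hδ₁' g1) hs4
  have w2 := z2 s.re t (by rw [hab]; exact ht2) (reg δ₂ hd2 hδ₂' g2) (by linarith)
  rw [hsd, hab] at w1 w2
  refine ⟨w1.1, ?_⟩
  have hz : 0 < ‖riemannZeta s‖ := norm_pos_iff.2 w1.1
  have hLone : 1 ≤ L := by linarith
  have h2L : 2 * L ≤ L ^ (2 : ℝ) := by
    rw [Real.rpow_two]; nlinarith
  rcases le_or_gt 0 b with hb | hb
  · have q1 : ‖riemannZeta s‖ ≤ L ^ (2 : ℝ) := by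
      refine w2.trans ?_
      rw [Real.rpow_two]
      have : K₂ * Real.log t ≤ K₂ * (2 * L) := mul_le_mul_of_nonneg_left hlt2 (by linarith)
      nlinarith
    have q2 : ‖riemannZeta s‖ ^ b ≤ (L ^ (2 : ℝ)) ^ b := Real.rpow_le_rpow hz.le q1 hb
    rw [← Real.rpow_mul hL0.le] at q2
    refine q2.trans (Real.rpow_le_rpow_of_exponent_le hLone ?_)
    rw [hK, abs_of_nonneg hb]
    have : 0 ≤ 2 * b * K₁ := by positivity
    linarith
  · have q0 : ‖riemannZeta s‖ ^ b = ‖(riemannZeta s)⁻¹‖ ^ (-b) := by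
      rw [norm_inv, Real.inv_rpow hz.le, Real.rpow_neg hz.le, inv_inv]
    have q1 : ‖(riemannZeta s)⁻¹‖ ≤ L ^ (2 * K₁) := by
      refine w1.2.trans ?_
      calc Real.log t ^ K₁ ≤ (L ^ (2 : ℝ)) ^ K₁ :=
            Real.rpow_le_rpow (by linarith) (hlt2.trans h2L) (by linarith)
        _ = L ^ (2 * K₁) := by rw [← Real.rpow_mul hL0.le]
    have q2 : ‖(riemannZeta s)⁻¹‖ ^ (-b) ≤ (L ^ (2 * K₁)) ^ (-b) :=
      Real.rpow_le_rpow (norm_nonneg _) q1 (by linarith)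
    rw [q0]
    refine q2.trans ?_
    rw [← Real.rpow_mul hL0.le]
    refine Real.rpow_le_rpow_of_exponent_le hLone ?_
    rw [hK, abs_of_neg hb]
    have : 0 ≤ 2 * (-b) := by linarith
    nlinarith

end Pool.Agent.W2helper8.ZQ
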